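import Pool.Agent.Helper68.Dom.Goals

/-!
# DOM-PATH4: six vertices with the non-edges of a path with four vertices
-/

namespace NApexGraphs.Dom.Helper85

open SimpleGraph NApexGraphs NApexGraphs.Dom

variable {V : Type} {G : SimpleGraph V}

/-- the structure of a `K₅` model on six vertices -/
theorem five_of_six (v : Fin 6 → V) (hv : Function.Injective v)
    (h : HasK5 G (Set.range v)) :
    ∃ i0 i1 : Fin 6, i0 ≠ i1 ∧
      (∀ i j, i ≠ j → i ≠ i0 → i ≠ i1 → j ≠ i0 → j ≠ i1 → G.Adj (v i) (v j)) ∧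
      (∀ j, j ≠ i0 → j ≠ i1 → G.Adj (v i1) (v j) ∨ G.Adj (v i0) (v j)) ∧
      (G.Adj (v i0) (v i1) ∨ ∀ j, j ≠ i0 → j ≠ i1 → G.Adj (v i1) (v j)) := by
  classical
  obtain ⟨B, hB, hs⟩ := h
  have hB' := hB
  rw [isModel_iff] at hB'
  obtain ⟨hc, hd, ha⟩ := hB'
  have hex : ∀ k, ∃ i, v i ∈ B k := by
    intro k
    obtain ⟨x, hx⟩ := (hc k).1
    obtain ⟨i, rfl⟩ := hs k hx
    exact ⟨i, hx⟩
  choose g hg using hex
  have uniq : ∀ {k l : Fin 5} {x : V}, x ∈ B k → x ∈ B l → k = l := by
    intro k l x hk hl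
    by_contra hne
    exact Set.disjoint_left.1 (hd k l hne) hk hl
  have ginj : Function.Injective g := by
    intro k l hkl
    have h1 := hg k
    rw [hkl] at h1
    exact uniq h1 (hg l)
  have hcard : ((Finset.univ : Finset (Fin 6)) \ Finset.univ.image g).card = 1 := by
    rw [Finset.card_sdiff_of_subset (Finset.subset_univ _),
      Finset.card_image_of_injective _ ginj]
    simp
  obtain ⟨i0, hi0⟩ := Finset.card_eq_one.1 hcard
  have hi0' : ∀ k, g k ≠ i0 := by
    intro k hk
    have h1 : i0 ∈ ({i0} : Finset (Fin 6)) := Finset.mem_singleton_self _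
    rw [← hi0, Finset.mem_sdiff] at h1
    apply h1.2
    rw [Finset.mem_image]
    exact ⟨k, Finset.mem_univ _, hk⟩
  have hrange : ∀ i, i ≠ i0 → ∃ k, g k = i := by
    intro i hi
    by_contra hcon
    have h1 : i ∈ (Finset.univ : Finset (Fin 6)) \ Finset.univ.image g := by
      rw [Finset.mem_sdiff]
      refine ⟨Finset.mem_univ _, ?_⟩
      intro h2
      rw [Finset.mem_image] at h2
      obtain ⟨k, _, hk⟩ := h2
      exact hcon ⟨k, hk⟩
    rw [hi0, Finset.mem_singleton] at h1
    exact hi h1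
  -- the elements of the branch sets
  have helt : ∀ k x, x ∈ B k → x = v i0 ∨ x = v (g k) := by
    intro k x hx
    obtain ⟨i, rfl⟩ := hs k hx
    by_cases hi : i = i0
    · left; rw [hi]
    · obtain ⟨l, hl⟩ := hrange i hi
      right
      have h1 := hg l
      rw [hl] at h1
      rw [uniq hx h1, hl]
  by_cases hcase : ∃ k0, v i0 ∈ B k0
  · obtain ⟨k0, hk0⟩ := hcase
    have helt' : ∀ k x, k ≠ k0 → x ∈ B k → x = v (g k) := by
      intro k x hk hx
      rcases helt k x hx with h1 | h1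
      · rw [h1] at hx
        exact absurd (uniq hx hk0) hk
      · exact h1
    refine ⟨i0, g k0, (hi0' k0).symm, ?_, ?_, ?_⟩
    · intro i j hij hi hi' hj hj'
      obtain ⟨k, rfl⟩ := hrange i hi
      obtain ⟨l, rfl⟩ := hrange j hj
      have hk : k ≠ k0 := fun h => hi' (by rw [h])
      have hl : l ≠ k0 := fun h => hj' (by rw [h])
      have hkl : k ≠ l := fun h => hij (by rw [h])
      obtain ⟨x, hx, y, hy, hxy⟩ := ha k l hkl
      rw [helt' k x hk hx, helt' l y hl hy] at hxy
      exact hxy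
    · intro j hj hj'
      obtain ⟨l, rfl⟩ := hrange j hj
      have hl : l ≠ k0 := fun h => hj' (by rw [h])
      obtain ⟨x, hx, y, hy, hxy⟩ := ha k0 l hl.symm
      rw [helt' l y hl hy] at hxy
      rcases helt k0 x hx with h1 | h1
      · rw [h1] at hxy; exact Or.inr hxy
      · rw [h1] at hxy; exact Or.inl hxy
    · left
      have hne : v (g k0) ≠ v i0 := fun h => hi0' k0 (hv h)
      obtain ⟨x, hx, hxA, y, hy, hyA, hxy⟩ := (hc k0).exists_edge (A := {v i0})
        ⟨v i0, hk0, rfl⟩ ⟨v (g k0), hg k0, hne⟩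
      rw [Set.mem_singleton_iff] at hxA hyA
      rcases helt k0 y hy with h1 | h1
      · exact absurd h1 hyA
      · rw [hxA, h1] at hxy; exact hxy
  · push Not at hcase
    have helt' : ∀ k x, x ∈ B k → x = v (g k) := by
      intro k x hx
      rcases helt k x hx with h1 | h1
      · rw [h1] at hx
        exact absurd hx (hcase k)
      · exact h1
    have hadj : ∀ k l, k ≠ l → G.Adj (v (g k)) (v (g l)) := by
      intro k l hkl
      obtain ⟨x, hx, y, hy, hxy⟩ := ha k l hkl
      rw [helt' k x hx, helt' l y hy] at hxy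
      exact hxy
    refine ⟨i0, g 0, (hi0' 0).symm, ?_, ?_, ?_⟩
    · intro i j hij hi hi' hj hj'
      obtain ⟨k, rfl⟩ := hrange i hi
      obtain ⟨l, rfl⟩ := hrange j hj
      exact hadj k l fun h => hij (by rw [h])
    · intro j hj hj'
      obtain ⟨l, rfl⟩ := hrange j hj
      exact Or.inl (hadj 0 l fun h => hj' (by rw [h]))
    · right
      intro j hj hj'
      obtain ⟨l, rfl⟩ := hrange j hj
      exact hadj 0 l fun h => hj' (by rw [h])

/-- the structure of a `K₃,₃` model on six vertices -/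
theorem six_of_six (v : Fin 6 → V) (h : HasK33 G (Set.range v)) :
    ∃ e : Fin 6 → Fin 3 ⊕ Fin 3, Function.Injective e ∧
      ∀ i j, K33.Adj (e i) (e j) → G.Adj (v i) (v j) := by
  classical
  obtain ⟨B, hB, hs⟩ := h
  have hB' := hB
  rw [isModel_iff] at hB'
  obtain ⟨hc, hd, ha⟩ := hB'
  have hex : ∀ k, ∃ i, v i ∈ B k := by
    intro k
    obtain ⟨x, hx⟩ := (hc k).1
    obtain ⟨i, rfl⟩ := hs k hx
    exact ⟨i, hx⟩
  choose g hg using hex
  have uniq : ∀ {k l : Fin 3 ⊕ Fin 3} {x : V}, x ∈ B k → x ∈ B l → k = l := by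
    intro k l x hk hl
    by_contra hne
    exact Set.disjoint_left.1 (hd k l hne) hk hl
  have ginj : Function.Injective g := by
    intro k l hkl
    have h1 := hg k
    rw [hkl] at h1
    exact uniq h1 (hg l)
  have gbij : Function.Bijective g := by
    rw [Fintype.bijective_iff_injective_and_card]
    exact ⟨ginj, by simp⟩
  let e := Equiv.ofBijective g gbij
  refine ⟨e.symm, e.symm.injective, ?_⟩
  have helt : ∀ k x, x ∈ B k → x = v (g k) := by
    intro k x hx
    obtain ⟨i, rfl⟩ := hs k hx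
    obtain ⟨l, hl⟩ := gbij.2 i
    have h1 := hg l
    rw [hl] at h1
    rw [uniq hx h1, hl]
  intro i j hij
  obtain ⟨x, hx, y, hy, hxy⟩ := ha _ _ hij
  have e1 : g (e.symm i) = i := e.apply_symm_apply i
  have e2 : g (e.symm j) = j := e.apply_symm_apply j
  rw [helt _ x hx, helt _ y hy, e1, e2] at hxy
  exact hxy

theorem gPATH4 : Goals.PATH4 := by
  intro V G a b c d e f hnd hab hbc hcd
  have hv : Function.Injective ![a, b, c, d, e, f] := by
    have h1 : List.ofFn ![a, b, c, d, e, f] = [a, b, c, d, e, f] := by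
      simp [List.ofFn_succ]
    rw [← List.nodup_ofFn, h1]
    exact hnd
  have hZ : ({a, b, c, d, e, f} : Set V) = Set.range ![a, b, c, d, e, f] := by
    simp [Matrix.range_cons, Matrix.range_empty]
    ext x
    simp only [Set.mem_insert_iff, Set.mem_singleton_iff]
    tauto
  have h01 : ¬ G.Adj (![a, b, c, d, e, f] 0) (![a, b, c, d, e, f] 1) := hab
  have h12 : ¬ G.Adj (![a, b, c, d, e, f] 1) (![a, b, c, d, e, f] 2) := hbc
  have h23 : ¬ G.Adj (![a, b, c, d, e, f] 2) (![a, b, c, d, e, f] 3) := hcd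
  rw [hZ]
  generalize ![a, b, c, d, e, f] = v at hv h01 h12 h23
  constructor
  · intro h5
    obtain ⟨i0, i1, hne, h1, h2, h3⟩ := five_of_six v hv h5
    have h10 : ¬ G.Adj (v 1) (v 0) := fun h => h01 h.symm
    have h21 : ¬ G.Adj (v 2) (v 1) := fun h => h12 h.symm
    have h32 : ¬ G.Adj (v 3) (v 2) := fun h => h23 h.symm
    have a1 : 0 = i0 ∨ 0 = i1 ∨ 1 = i0 ∨ 1 = i1 := by
      by_contra hcon
      push Not at hcon
      exact h01 (h1 0 1 (by decide) hcon.1 hcon.2.1 hcon.2.2.1 hcon.2.2.2)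
    have a2 : 1 = i0 ∨ 1 = i1 ∨ 2 = i0 ∨ 2 = i1 := by
      by_contra hcon
      push Not at hcon
      exact h12 (h1 1 2 (by decide) hcon.1 hcon.2.1 hcon.2.2.1 hcon.2.2.2)
    have a3 : 2 = i0 ∨ 2 = i1 ∨ 3 = i0 ∨ 3 = i1 := by
      by_contra hcon
      push Not at hcon
      exact h23 (h1 2 3 (by decide) hcon.1 hcon.2.1 hcon.2.2.1 hcon.2.2.2)
    have b0 := h2 0
    have b1 := h2 1
    have b2 := h2 2
    have b3 := h2 3
    have c0 : G.Adj (v i0) (v i1) ∨ (0 ≠ i0 → 0 ≠ i1 → G.Adj (v i1) (v 0)) :=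
      h3.imp id fun h => h 0
    have c1 : G.Adj (v i0) (v i1) ∨ (1 ≠ i0 → 1 ≠ i1 → G.Adj (v i1) (v 1)) :=
      h3.imp id fun h => h 1
    have c2 : G.Adj (v i0) (v i1) ∨ (2 ≠ i0 → 2 ≠ i1 → G.Adj (v i1) (v 2)) :=
      h3.imp id fun h => h 2
    have c3 : G.Adj (v i0) (v i1) ∨ (3 ≠ i0 → 3 ≠ i1 → G.Adj (v i1) (v 3)) :=
      h3.imp id fun h => h 3
    clear h1 h2 h3
    fin_cases i0 <;> fin_cases i1 <;> simp_all
  · intro h6
    obtain ⟨e, he, hadj⟩ := six_of_six v h6
    have side : ∀ i j, ¬ G.Adj (v i) (v j) → (e i).isLeft = (e j).isLeft := by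
      intro i j hij
      by_contra hcon
      apply hij
      apply hadj
      cases h1 : e i <;> cases h2 : e j <;> simp_all
    have s1 := side 0 1 h01
    have s2 := side 1 2 h12
    have s3 := side 2 3 h23
    have key3 : ∀ x y z w : Fin 3, x ≠ y → x ≠ z → x ≠ w → y ≠ z → y ≠ w → z ≠ w → False := by
      intro x y z w h1 h2 h3 h4 h5 h6
      rw [ne_eq, Fin.ext_iff] at h1 h2 h3 h4 h5 h6
      omega
    have key : ∀ x y z w : Fin 3 ⊕ Fin 3, x.isLeft = y.isLeft → y.isLeft = z.isLeft →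
        z.isLeft = w.isLeft → x ≠ y → x ≠ z → x ≠ w → y ≠ z → y ≠ w → z ≠ w → False := by
      rintro (x | x) (y | y) (z | z) (w | w) h1 h2 h3 n1 n2 n3 n4 n5 n6 <;>
        simp only [Sum.isLeft_inl, Sum.isLeft_inr, Bool.true_eq_false, Bool.false_eq_true]
          at h1 h2 h3
      · exact key3 x y z w (fun h => n1 (by rw [h])) (fun h => n2 (by rw [h]))
          (fun h => n3 (by rw [h])) (fun h => n4 (by rw [h])) (fun h => n5 (by rw [h]))
          (fun h => n6 (by rw [h]))
      · exact key3 x y z w (fun h => n1 (by rw [h])) (fun h => n2 (by rw [h]))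
          (fun h => n3 (by rw [h])) (fun h => n4 (by rw [h])) (fun h => n5 (by rw [h]))
          (fun h => n6 (by rw [h]))
    exact key (e 0) (e 1) (e 2) (e 3) s1 s2 s3 (fun h => absurd (he h) (by decide))
      (fun h => absurd (he h) (by decide)) (fun h => absurd (he h) (by decide))
      (fun h => absurd (he h) (by decide)) (fun h => absurd (he h) (by decide))
      (fun h => absurd (he h) (by decide))

end NApexGraphs.Dom.Helper85
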